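import Pool.Agent.Q253.LinkRW.Upper
import Pool.Agent.Q253.RankWidth.Lower
import Pool.Agent.Y424.LK.Lower
import Pool.Agent.Y424.LK.Four
import Pool.Agent.Y424.LK.QDefs

/-!
# Four-colourings of triples all of whose links have small rank-width
-/

open Finset

set_option autoImplicit false
set_option linter.unusedSectionVars false
set_option linter.unusedVariables false

namespace Pool.Agent.Q253.LinkRW

open Pool.Agent.Q253.RankWidth Pool.Agent.Y424.LK Pool.Agent.TH138.NF

theorem hh_lt_of {u u' h : ℕ} (e : u / 2 ^ h = u' / 2 ^ h) : u = u' ∨ hh u u' < h := by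
  rcases lt_trichotomy u u' with hlt | heq | hlt
  · right
    rw [hh_lt hlt]
    by_contra hcon
    push Not at hcon
    exact (hd_spec hlt h).1 hcon e
  · exact Or.inl heq
  · right
    rw [hh_gt hlt]
    by_contra hcon
    push Not at hcon
    exact (hd_spec hlt h).1 hcon e.symm

theorem le_hh_of {u v h : ℕ} (e : u / 2 ^ h ≠ v / 2 ^ h) : h ≤ hh u v := by
  rcases lt_trichotomy u v with hlt | heq | hlt
  · rw [hh_lt hlt]
    exact (hd_spec hlt h).2 e
  · exact absurd (by rw [heq]) e
  · rw [hh_gt hlt]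
    exact (hd_spec hlt h).2 (Ne.symm e)

theorem hh_congr {u u' v h : ℕ} (e : u / 2 ^ h = u' / 2 ^ h) (hv : u / 2 ^ h ≠ v / 2 ^ h) :
    hh u v = hh u' v := by
  rcases hh_lt_of e with rfl | hlt
  · rfl
  · have h1 := le_hh_of hv
    have h2 := le_hh_of (e ▸ hv : u' / 2 ^ h ≠ v / 2 ^ h)
    have h3 := ultra u u' v
    have h4 := ultra u' u v
    rw [hh_comm u' u] at h4
    apply le_antisymm
    · rcases le_max_iff.1 h3 with h5 | h5 <;> omega
    · rcases le_max_iff.1 h4 with h5 | h5 <;> omega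

/-- the part of `U` in an interval of the binary tree -/
def part (U : Finset ℕ) (h p : ℕ) : Finset {x // x ∈ U} := univ.filter fun u => u.1 / 2 ^ h = p

theorem mem_part {U : Finset ℕ} {h p : ℕ} {u : {x // x ∈ U}} :
    u ∈ part U h p ↔ u.1 / 2 ^ h = p := by
  unfold part
  rw [mem_filter]
  exact ⟨fun h => h.2, fun h => ⟨mem_univ _, h⟩⟩

theorem dec_part {U : Finset ℕ} {P : Finset {x // x ∈ U} → Prop}
    (hP : ∀ h p, (part U h p).Nonempty → P (part U h p)) :
    ∀ h p, (part U h p).Nonempty → Dec P (part U h p) := by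
  classical
  intro h
  induction h with
  | zero =>
    intro p hne
    obtain ⟨u, hu⟩ := hne
    have e : part U 0 p = {u} := by
      ext v
      rw [mem_part, mem_singleton]
      rw [mem_part] at hu
      simp only [pow_zero, Nat.div_one] at hu ⊢
      constructor
      · intro h
        exact Subtype.ext (h.trans hu.symm)
      · intro h
        rw [h]
        exact hu
    have h1 := hP 0 p ⟨u, hu⟩
    rw [e] at h1 ⊢
    exact Dec.leaf u h1
  | succ h ih =>
    intro p hne
    have hdiv : ∀ u : ℕ, u / 2 ^ (h + 1) = u / 2 ^ h / 2 := fun u => by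
      rw [pow_succ, Nat.div_div_eq_div_mul]
    have e : part U (h + 1) p = part U h (2 * p) ∪ part U h (2 * p + 1) := by
      ext v
      rw [mem_union, mem_part, mem_part, mem_part, hdiv]
      omega
    have hd : Disjoint (part U h (2 * p)) (part U h (2 * p + 1)) := by
      rw [disjoint_left]
      intro v h1 h2
      rw [mem_part] at h1 h2
      omega
    have h1 := hP (h + 1) p hne
    rcases (part U h (2 * p)).eq_empty_or_nonempty with h2 | h2
    · rw [e, h2, empty_union] at hne h1 ⊢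
      exact ih _ hne
    · rcases (part U h (2 * p + 1)).eq_empty_or_nonempty with h3 | h3
      · rw [e, h3, union_empty] at hne h1 ⊢
        exact ih _ hne
      · rw [e] at h1 ⊢
        exact Dec.node' (ih _ h2) (ih _ h3) hd h1

theorem dec_univ {U : Finset ℕ} {P : Finset {x // x ∈ U} → Prop} (hU : U.Nonempty)
    (hP : ∀ h p, (part U h p).Nonempty → P (part U h p)) : Dec P univ := by
  obtain ⟨B, hB⟩ : ∃ B, ∀ u ∈ U, u < 2 ^ B := by
    refine ⟨U.sup id, fun u hu => ?_⟩
    have : u ≤ U.sup id := le_sup (f := id) hu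
    exact this.trans_lt Nat.lt_two_pow_self
  have e : part U B 0 = univ := by
    ext u
    rw [mem_part]
    exact ⟨fun _ => mem_univ _, fun _ => Nat.div_eq_of_lt (hB u.1 u.2)⟩
  obtain ⟨u, hu⟩ := hU
  rw [← e]
  apply dec_part hP
  rw [e]
  exact ⟨⟨u, hu⟩, mem_univ _⟩

variable {m : ℕ}

/-- coordinates -/
def vA (x : Pool.Agent.Q253.TwoRank.Sp m) : (Fin m ⊕ Fin m) ⊕ Fin 1 → ZMod 2 :=
  Sum.elim (Sum.elim x.1 x.2) (fun _ => 1)

/-- coordinates -/
def vC (x : Pool.Agent.Q253.TwoRank.Sp m) (e : ZMod 2) : (Fin m ⊕ Fin m) ⊕ Fin 1 → ZMod 2 :=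
  Sum.elim (Sum.elim x.2 x.1) (fun _ => e)

/-- coordinates -/
def vY (e : ZMod 2) : (Fin m ⊕ Fin m) ⊕ Fin 1 → ZMod 2 :=
  Sum.elim (fun _ => 0) (fun _ => e)

theorem vA_vC (x y : Pool.Agent.Q253.TwoRank.Sp m) (e : ZMod 2) :
    vA x ⬝ᵥ vC y e = Pool.Agent.Q253.TwoRank.om m x y + e := by
  show ∑ j, vA x j * vC y e j = _
  rw [Fintype.sum_sum_type, Fintype.sum_sum_type]
  simp only [vA, vC, Sum.elim_inl, Sum.elim_inr, one_mul, univ_unique, sum_const, card_singleton,
    one_smul]
  rfl

theorem vA_vY (x : Pool.Agent.Q253.TwoRank.Sp m) (e : ZMod 2) : vA x ⬝ᵥ vY e = e := by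
  show ∑ j, vA x j * vY e j = _
  rw [Fintype.sum_sum_type]
  simp [vA, vY]

/-- a cut with such coordinates has small rank -/
theorem cutRank_of {V : Type} [Fintype V] (G : SimpleGraph V) (T : Finset V)
    (X : V → Pool.Agent.Q253.TwoRank.Sp m) (Y : V → (Fin m ⊕ Fin m) ⊕ Fin 1 → ZMod 2)
    (h : ∀ u ∈ T, ∀ v, v ∉ T → ent G u v = vA (X u) ⬝ᵥ Y v) : cutRank G T ≤ 2 * m + 1 := by
  have hcard : Fintype.card ((Fin m ⊕ Fin m) ⊕ Fin 1) = 2 * m + 1 := by
    simp
    ring
  let e : (Fin m ⊕ Fin m) ⊕ Fin 1 ≃ Fin (2 * m + 1) := Fintype.equivFinOfCardEq hcard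
  apply Fac.cutRank_le
  refine ⟨fun u i => vA (X u) (e.symm i), fun v i => Y v (e.symm i),
    fun i => (vY 1 : _ → ZMod 2) (e.symm i), ?_, ?_⟩
  · intro u hu v hv
    rw [h u hu v hv]
    exact (Equiv.sum_comp e.symm fun j => vA (X u) j * Y v j).symm
  · intro u hu
    have h1 : (fun i => vA (X u) (e.symm i)) ⬝ᵥ (fun i => (vY 1 : _ → ZMod 2) (e.symm i)) =
      vA (X u) ⬝ᵥ vY 1 := Equiv.sum_comp e.symm fun j => vA (X u) j * vY 1 j
    rw [h1, vA_vY]

/-- the colouring of pairs -/
def chi (x : ℕ → Pool.Agent.Q253.TwoRank.Sp m) (i j : ℕ) : Bool :=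
  decide (Pool.Agent.Q253.TwoRank.om m (x i) (x j) = 1)

theorem link_rw (x : ℕ → Pool.Agent.Q253.TwoRank.Sp m) (c : Finset ℕ → Bool × Bool) (R : ℕ)
    (hc : ∀ u v z, u < v → v < z → z < R → c {u, v, z} = f3 (chi x) (hh u v) (hh v z))
    (U : Finset ℕ) (hU : U.Nonempty) (z : ℕ) (hz : z < R) (hUz : ∀ u ∈ U, u < z) :
    ColRankWidthLE (fun a => colourLink c a U {z}) (2 * m + 1) := by
  classical
  apply dec_univ hU
  intro h p hne a
  obtain ⟨u0, hu0⟩ := hne
  rw [mem_part] at hu0
  -- the column vectors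
  let Y : {x // x ∈ U} → (Fin m ⊕ Fin m) ⊕ Fin 1 → ZMod 2 := fun v =>
    if p < v.1 / 2 ^ h then
      vY (if f3 (chi x) (hh u0.1 v.1) (hh v.1 z) = a then 1 else 0)
    else if z / 2 ^ h = p then
      (if a.2 = true then vY 0 else
        if a.1 = true then vC (x (hh u0.1 v.1)) 0 else vC (x (hh u0.1 v.1)) 1)
    else vY (if f3 (chi x) (hh u0.1 v.1) (hh u0.1 z) = a then 1 else 0)
  apply cutRank_of (X := fun u => x (hh u.1 z)) (Y := Y)
  intro u hu v hv
  rw [mem_part] at hu hv
  have huz := hUz u.1 u.2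
  have hvz := hUz v.1 v.2
  have huv : u ≠ v := fun e => hv (e ▸ hu)
  have e1 : hh u.1 v.1 = hh u0.1 v.1 := hh_congr (hu.trans hu0.symm) (by rw [hu]; exact Ne.symm hv)
  have hadj : (colourLink c a U {z}).Adj u v ↔ c {u.1, v.1, z} = a :=
    ⟨fun h => h.2, fun h => ⟨huv, h⟩⟩
  have hent : ent (colourLink c a U {z}) u v = if c {u.1, v.1, z} = a then 1 else 0 := by
    unfold ent
    simp only [hadj]
  rw [hent]
  by_cases hpv : p < v.1 / 2 ^ h
  · have hlt : u.1 < v.1 := by
      by_contra hle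
      push Not at hle
      have := Nat.div_le_div_right (c := 2 ^ h) hle
      omega
    have hY : Y v = vY (if f3 (chi x) (hh u0.1 v.1) (hh v.1 z) = a then 1 else 0) := if_pos hpv
    rw [hY, vA_vY, hc _ _ _ hlt hvz hz, e1]
  · have hlt : v.1 < u.1 := by
      by_contra hle
      push Not at hle
      have := Nat.div_le_div_right (c := 2 ^ h) hle
      omega
    have hset : ({u.1, v.1, z} : Finset ℕ) = {v.1, u.1, z} := by
      rw [insert_comm]
    by_cases hzp : z / 2 ^ h = p
    · have hY : Y v = (if a.2 = true then vY 0 else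
        if a.1 = true then vC (x (hh u0.1 v.1)) 0 else vC (x (hh u0.1 v.1)) 1) := by
        show (if p < v.1 / 2 ^ h then _ else if z / 2 ^ h = p then _ else _) = _
        rw [if_neg hpv, if_pos hzp]
      have e2 : hh u.1 z < h := by
        rcases hh_lt_of (hu.trans hzp.symm) with h1 | h1
        · omega
        · exact h1
      have e3 : h ≤ hh v.1 u.1 := le_hh_of (by rw [hu]; exact hv)
      have e4 : f3 (chi x) (hh v.1 u.1) (hh u.1 z) = (chi x (hh u.1 z) (hh u0.1 v.1), false) := by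
        unfold f3
        rw [min_eq_right (by omega), max_eq_left (by omega), hh_comm v.1 u.1, e1]
        congr 1
        rw [decide_eq_false_iff_not]
        rw [← e1, hh_comm u.1 v.1]
        omega
      rw [hset, hc _ _ _ hlt huz hz, e4, hY]
      obtain ⟨a1, a2⟩ := a
      cases a2
      · cases a1
        · simp only [Bool.false_eq_true, if_false, vA_vC, Prod.mk.injEq, and_true, chi]
          rcases Pool.Agent.Q253.TwoRank.zo (Pool.Agent.Q253.TwoRank.om m (x (hh u.1 z))
            (x (hh u0.1 v.1))) with h5 | h5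
          · rw [h5]
            simp
          · rw [h5]
            simp
            decide
        · simp only [Bool.false_eq_true, if_false, if_true, vA_vC, Prod.mk.injEq, and_true, chi]
          rcases Pool.Agent.Q253.TwoRank.zo (Pool.Agent.Q253.TwoRank.om m (x (hh u.1 z))
            (x (hh u0.1 v.1))) with h5 | h5
          · rw [h5]
            simp
          · rw [h5]
            simp
      · simp only [if_true, vA_vY, Prod.mk.injEq]
        simp
    · have hY : Y v = vY (if f3 (chi x) (hh u0.1 v.1) (hh u0.1 z) = a then 1 else 0) := by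
        show (if p < v.1 / 2 ^ h then _ else if z / 2 ^ h = p then _ else _) = _
        rw [if_neg hpv, if_neg hzp]
      have e2 : hh u.1 z = hh u0.1 z :=
        hh_congr (hu.trans hu0.symm) (by rw [hu]; exact Ne.symm hzp)
      rw [hY, vA_vY, hset, hc _ _ _ hlt huz hz, hh_comm v.1 u.1, e1, e2]

end Pool.Agent.Q253.LinkRW
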