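import Pool.Agent.Q253.LinkRW.Upper
import Pool.Agent.Y424.LK.QMain

/-!
# Links of large rank-width
-/

open Finset

set_option autoImplicit false

namespace Pool.Agent.Q253.LinkRW

open Pool.Agent.Q253.RankWidth Pool.Agent.Y424.LK Pool.Agent.TH138.NF

theorem exists_link_rw (κ : Type) [Fintype κ] [Nonempty κ] (Y n w D : ℕ) (hD1 : 1 ≤ D)
    (hD : 3 * 2 ^ (Fintype.card κ * w) * (2 * Fintype.card κ) ^ D ≤ D ^ D)
    (hY : n ^ (Fintype.card κ * D) < 2 ^ Y)
    (c : Finset ℕ → κ) {U S : Finset ℕ} (hUc : U.card = 2 ^ Y) (hfree : ∀ a : κ, (colourLink c a U S).CliqueFree n) :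
    ¬ ColRankWidthLE (fun a => colourLink c a U S) w := by
  classical
  intro hrw
  have h1 := upperQ (lk c U S) (lk_comm c U S) (w := w) (D := D) hrw hD1 hD _ univ rfl
  rw [card_univ, Fintype.card_coe, hUc] at h1
  have h2 : ∀ a, om (gr (lk c U S) (lk_comm c U S) a) univ ≤ n := by
    intro a
    by_contra hcon
    push Not at hcon
    obtain ⟨K, -, hK, he⟩ := om_mem (gr (lk c U S) (lk_comm c U S) a) univ
    obtain ⟨T, hT, hTc⟩ := exists_subset_card_eq (show n ≤ K.card by omega)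
    exact hfree a T ⟨hK.subset (coe_subset.2 hT), hTc⟩
  have h3 : (∏ a, om (gr (lk c U S) (lk_comm c U S) a) univ) ^ D ≤ n ^ (Fintype.card κ * D) := by
    rw [pow_mul]
    apply Nat.pow_le_pow_left
    calc ∏ a, om (gr (lk c U S) (lk_comm c U S) a) univ ≤ ∏ _a : κ, n :=
          prod_le_prod' fun a _ => h2 a
      _ = n ^ Fintype.card κ := by rw [prod_const, card_univ]
  have h4 : 2 ^ Y ≤ n ^ (Fintype.card κ * D) := by
    refine le_trans ?_ h3
    convert h1
  omega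

theorem ev_sqrt (C : ℝ) (hC : 0 < C) : ∃ l₀ : ℕ, ∀ l : ℕ, l₀ ≤ l →
    C * (l + 1) ≤ (Real.sqrt 2) ^ l := by
  have h1 : (1 : ℝ) < Real.sqrt 2 := by
    rw [Real.lt_sqrt (by norm_num)]
    norm_num
  have h2 := tendsto_pow_const_div_const_pow_of_one_lt 1 h1
  have h3 : ∀ᶠ l : ℕ in Filter.atTop, ((l : ℝ) ^ 1 / Real.sqrt 2 ^ l) < 1 / (2 * C) :=
    h2.eventually (gt_mem_nhds (by positivity))
  obtain ⟨l₀, hl₀⟩ := Filter.eventually_atTop.1 h3
  refine ⟨max l₀ 1, fun l hl => ?_⟩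
  have h4 := hl₀ l ((le_max_left _ _).trans hl)
  have h5 : 1 ≤ l := (le_max_right _ _).trans hl
  have h6 : (1 : ℝ) ≤ l := by exact_mod_cast h5
  rw [pow_one, div_lt_div_iff₀ (by positivity) (by positivity)] at h4
  nlinarith

set_option maxHeartbeats 1000000 in
theorem numbers (q : ℕ) (hq : 1 ≤ q) (K : ℕ) (ε : ℝ) (hε : 0 < ε) : ∃ n₀ : ℕ, ∀ n : ℕ, n₀ ≤ n →
    (K : ℝ) ≤ ε * n / 3 ∧ ∃ D : ℕ, 1 ≤ D ∧ n ^ (q * D) < 2 ^ ⌊ε * n / 3⌋₊ ∧
      ∀ w : ℕ, (w : ℝ) ≤ ε * n / (9 * q ^ 2) → 3 * 2 ^ (q * w) * (2 * q) ^ D ≤ D ^ D := by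
  set A : ℝ := 6 * K + 24 * (q + 2) + 8 * q * 2 ^ (q + 2) + 300 * q with hA
  have hq' : (1 : ℝ) ≤ q := by exact_mod_cast hq
  have hA0 : 0 < A := by positivity
  set C : ℝ := 1 + A / ε with hC
  have hC0 : 0 < C := by positivity
  have hC1 : 1 ≤ C := by
    have : 0 < A / ε := by positivity
    linarith
  have hεC : A ≤ ε * C := by
    rw [hC, mul_add, mul_div_cancel₀ _ hε.ne']
    linarith
  obtain ⟨l₀, hl₀⟩ := ev_sqrt C hC0
  refine ⟨2 ^ (l₀ + 1) + 1, fun n hn => ?_⟩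
  obtain ⟨l, hl⟩ : ∃ l, l = Nat.clog 2 n := ⟨_, rfl⟩
  have hn2 : 1 < n := by
    have : 1 ≤ 2 ^ (l₀ + 1) := Nat.one_le_two_pow
    omega
  have hnl : n ≤ 2 ^ l := by
    rw [hl]
    exact Nat.le_pow_clog (by norm_num) n
  have hlll : l₀ + 1 ≤ l := by
    by_contra hcon
    push Not at hcon
    have : 2 ^ l ≤ 2 ^ (l₀ + 1) := Nat.pow_le_pow_right (by norm_num) hcon.le
    omega
  have hln : 2 ^ (l - 1) < n := by
    rw [hl]
    exact Nat.pow_pred_clog_lt_self (by norm_num) hn2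
  have hl1 : 1 ≤ l := by omega
  have hX := hl₀ l (by omega)
  set X : ℝ := Real.sqrt 2 ^ l with hXdef
  have hX2 : X * X = 2 ^ l := by
    rw [hXdef, ← mul_pow, Real.mul_self_sqrt (by norm_num)]
  have hlr : (1 : ℝ) ≤ l := by exact_mod_cast hl1
  have hX1 : 1 ≤ X := by nlinarith
  have hXn : X * X ≤ 2 * n := by
    rw [hX2]
    have h1 : 2 ^ l ≤ 2 * n := by
      have : 2 ^ l = 2 * 2 ^ (l - 1) := by
        rw [← pow_succ']
        congr 1
        omega
      omega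
    exact_mod_cast h1
  set E : ℝ := ε * n with hE
  have hE1 : ε * (X * X) / 2 ≤ E := by
    rw [hE]
    nlinarith
  have hXX : C * (l + 1) * X ≤ X * X := mul_le_mul_of_nonneg_right hX (by linarith)
  have hE2 : A * (l + 1) * X / 2 ≤ E := by
    have h1 : A * ((l + 1) * X) ≤ ε * C * ((l + 1) * X) :=
      mul_le_mul_of_nonneg_right hεC (by positivity)
    have h2 : ε * (C * (l + 1) * X) ≤ ε * (X * X) := mul_le_mul_of_nonneg_left hXX hε.le
    nlinarith
  have hlX : 1 ≤ ((l : ℝ) + 1) * X := by nlinarith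
  have hlX2 : ((l : ℝ) + 1) ≤ (l + 1) * X := by nlinarith
  have hE3 : A / 2 ≤ E := by nlinarith
  have hKE : (K : ℝ) ≤ E / 3 := by
    have h1 : 6 * (K : ℝ) ≤ A := by
      rw [hA]
      have : (0 : ℝ) ≤ 24 * (q + 2) + 8 * q * 2 ^ (q + 2) + 300 * q := by positivity
      linarith
    linarith
  have hqE : 150 * (q : ℝ) ≤ E := by
    have h1 : 300 * (q : ℝ) ≤ A := by
      rw [hA]
      have : (0 : ℝ) ≤ 6 * K + 24 * (q + 2) + 8 * q * 2 ^ (q + 2) := by positivity
      linarith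
    linarith
  refine ⟨hKE, ?_⟩
  set Y := ⌊E / 3⌋₊ with hY
  have hY1 : E / 3 < Y + 1 := Nat.lt_floor_add_one _
  have hE0 : 0 ≤ E / 3 := by positivity
  have hYpos : 1 ≤ Y := by
    rw [hY, Nat.one_le_floor_iff]
    linarith
  obtain ⟨D, hDdef⟩ : ∃ D, D = (Y - 1) / (q * l) := ⟨_, rfl⟩
  have hql : 0 < q * l := by positivity
  have hD1 : q * l * D ≤ Y - 1 := by
    rw [hDdef]
    exact Nat.mul_div_le _ _
  have hD2 : Y - 1 < q * l * D + q * l := by
    rw [hDdef]
    exact Nat.lt_mul_div_succ _ hql |>.trans_le (by rw [mul_add, mul_one])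
  have hD3 : (Y : ℝ) < q * l * D + q * l + 1 := by
    have : Y < q * l * D + q * l + 1 := by omega
    exact_mod_cast this
  have hbig : (q : ℝ) * l + 2 ≤ E / 12 := by
    have h1 : 24 * ((q : ℝ) + 2) ≤ A := by
      rw [hA]
      have : (0 : ℝ) ≤ 6 * K + 8 * q * 2 ^ (q + 2) + 300 * q := by positivity
      linarith
    have h2 : 24 * ((q : ℝ) + 2) * (l + 1) ≤ A * ((l + 1) * X) := by
      apply mul_le_mul h1 hlX2 (by positivity) hA0.le
    have e2 : A * ((l + 1) * X) = A * (l + 1) * X := by ring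
    have e3 : 24 * ((q : ℝ) + 2) * (l + 1) = 24 * (q * l + 2) + 24 * q + 48 * l := by ring
    rw [e2, e3] at h2
    linarith
  have hD4 : E / 4 ≤ q * l * D := by linarith
  have hD5 : (2 : ℝ) ^ (q + 2) * X ≤ D := by
    have h1 : 8 * (q : ℝ) * 2 ^ (q + 2) ≤ A := by
      rw [hA]
      have : (0 : ℝ) ≤ 6 * K + 24 * (q + 2) + 300 * q := by positivity
      linarith
    have h2 : 8 * (q : ℝ) * 2 ^ (q + 2) * ((l + 1) * X) ≤ A * ((l + 1) * X) :=
      mul_le_mul_of_nonneg_right h1 (by positivity)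
    have h3 : (q : ℝ) * l * (2 ^ (q + 2) * X) ≤ q * l * D := by
      have h4 : (q : ℝ) * l * (2 ^ (q + 2) * X) ≤ q * (l + 1) * (2 ^ (q + 2) * X) := by
        apply mul_le_mul_of_nonneg_right _ (by positivity)
        apply mul_le_mul_of_nonneg_left _ (by positivity)
        linarith
      have e1 : 8 * (q : ℝ) * 2 ^ (q + 2) * ((l + 1) * X) =
        8 * (q * (l + 1) * (2 ^ (q + 2) * X)) := by ring
      have e2 : A * ((l + 1) * X) = A * (l + 1) * X := by ring
      rw [e1, e2] at h2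
      linarith
    have h5 : (0 : ℝ) < q * l := by positivity
    exact le_of_mul_le_mul_left h3 h5
  have hD6 : 2 ^ (q + 2 + l / 2) ≤ D := by
    have h1 : ((2 : ℝ) ^ (l / 2)) ≤ X := by
      have h2 : ((2 : ℝ) ^ (l / 2)) * (2 : ℝ) ^ (l / 2) ≤ X * X := by
        rw [hX2, ← pow_add]
        apply pow_le_pow_right₀ (by norm_num)
        omega
      have h3 : (0 : ℝ) ≤ (2 : ℝ) ^ (l / 2) := by positivity
      nlinarith
    have h2 : (2 : ℝ) ^ (q + 2 + l / 2) ≤ D := by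
      rw [pow_add]
      exact (mul_le_mul_of_nonneg_left h1 (by positivity)).trans hD5
    exact_mod_cast h2
  have hDpos : 1 ≤ D := le_trans Nat.one_le_two_pow hD6
  refine ⟨D, hDpos, ?_, ?_⟩
  · calc n ^ (q * D) ≤ (2 ^ l) ^ (q * D) := Nat.pow_le_pow_left hnl _
      _ = 2 ^ (q * l * D) := by
          rw [← pow_mul]
          congr 1
          ring
      _ < 2 ^ Y := Nat.pow_lt_pow_right (by norm_num) (by omega)
  · intro w hw
    have h1 : 2 + q * w + (q + 1) * D ≤ (q + 2 + l / 2) * D := by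
      have h2 : (q : ℝ) * w ≤ E / (9 * q) := by
        calc (q : ℝ) * w ≤ q * (E / (9 * q ^ 2)) := mul_le_mul_of_nonneg_left hw (by linarith)
          _ = E / (9 * q) := by
              field_simp
      have h3 : 2 + E / (9 * q) ≤ E / (8 * q) := by
        have hF : 2 ≤ E / (72 * q) := by
          rw [le_div_iff₀ (by positivity)]
          linarith
        have e1 : E / (9 * q) = 8 * (E / (72 * q)) := by
          field_simp
          ring
        have e2 : E / (8 * q) = 9 * (E / (72 * q)) := by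
          field_simp
          ring
        rw [e1, e2]
        linarith
      have h4 : E / (8 * q) ≤ (l : ℝ) * D / 2 := by
        rw [div_le_iff₀ (by positivity)]
        nlinarith
      have h5 : (l : ℝ) ≤ 2 * ((l / 2 : ℕ) : ℝ) + 1 := by
        have : l ≤ 2 * (l / 2) + 1 := by omega
        exact_mod_cast this
      have h6 : (l : ℝ) * D / 2 ≤ (((l / 2 : ℕ) : ℝ) + 1) * D := by
        have : (0 : ℝ) ≤ D := by positivity
        nlinarith
      have h7 : (2 : ℝ) + q * w ≤ (((l / 2 : ℕ) : ℝ) + 1) * D := by linarith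
      have h8 : 2 + q * w ≤ (l / 2 + 1) * D := by exact_mod_cast h7
      nlinarith
    have h2q : 2 * q ≤ 2 ^ (q + 1) := by
      rw [pow_succ']
      exact Nat.mul_le_mul_left _ Nat.lt_two_pow_self.le
    calc 3 * 2 ^ (q * w) * (2 * q) ^ D ≤ 2 ^ 2 * 2 ^ (q * w) * (2 ^ (q + 1)) ^ D := by
          gcongr
          norm_num
      _ = 2 ^ (2 + q * w + (q + 1) * D) := by
          rw [← pow_mul, ← pow_add, ← pow_add]
      _ ≤ 2 ^ ((q + 2 + l / 2) * D) := Nat.pow_le_pow_right (by norm_num) h1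
      _ = (2 ^ (q + 2 + l / 2)) ^ D := by rw [pow_mul]
      _ ≤ D ^ D := Nat.pow_le_pow_left hD6 _

end Pool.Agent.Q253.LinkRW
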