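import Pool.Agent.Q253.RankWidth.Upper

/-!
# Ramsey numbers of colourings of pairs with `q` colours and small rank-width
-/

open Finset

set_option autoImplicit false
set_option linter.unusedSectionVars false
set_option linter.unusedVariables false

namespace Pool.Agent.Q253.LinkRW

open Pool.Agent.Q253.RankWidth Classical

variable {V κ : Type}

/-- One binary tree with set of leaves `V` shows that all the graphs `G a` have rank-width at most
`w`: at every node, the set of the leaves below it has cut-rank at most `w` in all the `G a`. -/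
def ColRankWidthLE {V κ : Type} [Fintype V] (G : κ → SimpleGraph V) (w : ℕ) : Prop :=
  Dec (fun T => ∀ a, cutRank (G a) T ≤ w) univ

/-- the graph of the colour `a` -/
def gr {V κ : Type} (χ : V → V → κ) (hs : ∀ x y, χ x y = χ y x) (a : κ) : SimpleGraph V where
  Adj x y := x ≠ y ∧ χ x y = a
  symm := ⟨fun x y h => ⟨h.1.symm, by rw [hs]; exact h.2⟩⟩
  loopless := ⟨fun x h => h.1 rfl⟩

variable [Fintype V] [Fintype κ]

theorem popularQ (G : κ → SimpleGraph V) (T W : Finset V) (w : ℕ)
    (hT : ∀ a, cutRank (G a) T ≤ w) (hne : (T ∩ W).Nonempty) :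
    ∃ A ⊆ T ∩ W, (T ∩ W).card ≤ 2 ^ (Fintype.card κ * w) * A.card ∧
      ∀ a ∈ A, ∀ a' ∈ A, ∀ b ∈ W \ T, ∀ i : κ, ((G i).Adj a b ↔ (G i).Adj a' b) := by
  let g : V → κ → ((Tᶜ : Finset V) → ZMod 2) := fun u i v => if (G i).Adj u (v : V) then 1 else 0
  have h1 : ∀ i, ((T ∩ W).image fun u => g u i).card ≤ 2 ^ w := by
    intro i
    set M : Matrix T (Tᶜ : Finset V) (ZMod 2) := Matrix.of fun (u : T) (v : (Tᶜ : Finset V)) =>
      if (G i).Adj (u : V) (v : V) then (1 : ZMod 2) else 0 with hM
    have hr : M.rank ≤ w := hT i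
    have h1 : ((T ∩ W).image fun u => g u i) ⊆ univ.image fun i => M.row i := by
      intro y hy
      rw [mem_image] at hy
      obtain ⟨u, hu, rfl⟩ := hy
      rw [mem_image]
      exact ⟨⟨u, (mem_inter.1 hu).1⟩, mem_univ _, rfl⟩
    exact (card_le_card h1).trans ((card_rows M).trans (Nat.pow_le_pow_right (by norm_num) hr))
  have h2 : ((T ∩ W).image g).card ≤ 2 ^ (Fintype.card κ * w) := by
    have h3 : (T ∩ W).image g ⊆ Fintype.piFinset fun i => (T ∩ W).image fun u => g u i := by
      intro y hy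
      rw [mem_image] at hy
      obtain ⟨u, hu, rfl⟩ := hy
      rw [Fintype.mem_piFinset]
      intro i
      exact mem_image_of_mem _ hu
    calc ((T ∩ W).image g).card ≤ _ := card_le_card h3
      _ = ∏ i, ((T ∩ W).image fun u => g u i).card := Fintype.card_piFinset _
      _ ≤ ∏ _i : κ, 2 ^ w := prod_le_prod' fun i _ => h1 i
      _ = 2 ^ (Fintype.card κ * w) := by
          rw [prod_const, card_univ, ← pow_mul, mul_comm]
  obtain ⟨y, hy, hmax⟩ := exists_max_image ((T ∩ W).image g)
    (fun y => ((T ∩ W).filter fun x => g x = y).card) (hne.image g)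
  refine ⟨(T ∩ W).filter fun x => g x = y, filter_subset _ _, ?_, ?_⟩
  · have h3 := card_le_mul_card_image (f := g) (s := T ∩ W)
      ((T ∩ W).filter fun x => g x = y).card hmax
    calc (T ∩ W).card ≤ ((T ∩ W).filter fun x => g x = y).card * ((T ∩ W).image g).card := h3
      _ ≤ ((T ∩ W).filter fun x => g x = y).card * 2 ^ (Fintype.card κ * w) :=
          Nat.mul_le_mul_left _ h2
      _ = _ := mul_comm _ _
  · intro a ha a' ha' b hb i
    have hab : g a = g a' := (mem_filter.1 ha).2.trans (mem_filter.1 ha').2.symm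
    have hbT : b ∈ Tᶜ := by
      rw [mem_compl]
      exact (mem_sdiff.1 hb).2
    have := congrFun (congrFun hab i) ⟨b, hbT⟩
    simp only [g] at this
    by_cases c1 : (G i).Adj a b <;> by_cases c2 : (G i).Adj a' b <;> simp_all

/-- the numerical core -/
theorem numericQ [Nonempty κ] {n D w : ℕ} (Wo Ao : κ → ℕ) (hA : ∀ a, 1 ≤ Ao a)
    (hAW : ∀ a, Ao a ≤ Wo a) (hD1 : 1 ≤ D)
    (hD : 3 * 2 ^ (Fintype.card κ * w) * (2 * Fintype.card κ) ^ D ≤ D ^ D)
    (h1 : n ≤ 3 * 2 ^ (Fintype.card κ * w) * (∏ a, Ao a) ^ D)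
    (h2 : n ≤ 3 * ∑ a, ((Wo a - Ao a) * ∏ b ∈ univ.erase a, Wo b) ^ D) :
    n ≤ (∏ a, Wo a) ^ D := by
  by_contra hcon
  push Not at hcon
  set q := Fintype.card κ with hq
  have hq1 : 1 ≤ q := Fintype.card_pos
  have hW : ∀ a, (0 : ℝ) < Wo a := fun a => by exact_mod_cast lt_of_lt_of_le (hA a) (hAW a)
  have hD0 : (0 : ℝ) < D := by exact_mod_cast hD1
  set x : κ → ℝ := fun a => Ao a / Wo a with hx
  have hx0 : ∀ a, 0 < x a := fun a => by
    have : (0 : ℝ) < Ao a := by exact_mod_cast hA a
    exact div_pos this (hW a)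
  have hx1 : ∀ a, x a ≤ 1 := fun a => by
    rw [hx]
    simp only
    rw [div_le_one (hW a)]
    exact_mod_cast hAW a
  have hax : ∀ a, (Ao a : ℝ) = x a * Wo a := fun a => by
    rw [hx]
    simp only
    rw [div_mul_cancel₀ _ (hW a).ne']
  set P : ℝ := ∏ a, (Wo a : ℝ) with hP
  have hP0 : 0 < P := prod_pos fun a _ => hW a
  have hPD : 0 < P ^ D := by positivity
  have hc : P ^ D < n := by
    have : (((∏ a, Wo a) ^ D : ℕ) : ℝ) < n := by exact_mod_cast hcon
    push_cast at this
    exact this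
  obtain ⟨a₀, -, hmin⟩ := exists_min_image (univ : Finset κ) x univ_nonempty
  set z := x a₀ with hz
  have hz0 : 0 < z := hx0 a₀
  have hz1 : z ≤ 1 := hx1 a₀
  have hprod : ∏ a, x a ≤ z := by
    rw [← mul_prod_erase univ x (mem_univ a₀)]
    have : ∏ a ∈ univ.erase a₀, x a ≤ 1 := prod_le_one (fun a _ => (hx0 a).le) fun a _ => hx1 a
    have h0 : 0 ≤ x a₀ := (hx0 a₀).le
    calc x a₀ * ∏ a ∈ univ.erase a₀, x a ≤ x a₀ * 1 := mul_le_mul_of_nonneg_left this h0
      _ = z := mul_one _
  have hprod0 : 0 ≤ ∏ a, x a := prod_nonneg fun a _ => (hx0 a).le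
  have g1 : 1 < 3 * 2 ^ (q * w) * z ^ D := by
    have h1' : (n : ℝ) ≤ 3 * 2 ^ (q * w) * (∏ a, (Ao a : ℝ)) ^ D := by exact_mod_cast h1
    have e : (∏ a, (Ao a : ℝ)) = (∏ a, x a) * P := by
      rw [hP, ← prod_mul_distrib]
      exact prod_congr rfl fun a _ => hax a
    rw [e, mul_pow] at h1'
    have e2 : (∏ a, x a) ^ D ≤ z ^ D := pow_le_pow_left₀ hprod0 hprod _
    by_contra hle
    push Not at hle
    have e3 : 3 * 2 ^ (q * w) * ((∏ a, x a) ^ D * P ^ D) ≤ 1 * P ^ D := by
      rw [← mul_assoc]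
      apply mul_le_mul_of_nonneg_right _ hPD.le
      refine le_trans ?_ hle
      apply mul_le_mul_of_nonneg_left e2
      positivity
    linarith
  have g2 : 1 < 3 * (q * (1 - z) ^ D) := by
    have h2' : (n : ℝ) ≤ 3 * ∑ a, (((Wo a - Ao a : ℕ) : ℝ) * ∏ b ∈ univ.erase a, (Wo b : ℝ)) ^ D := by
      exact_mod_cast h2
    have e1 : ∀ a, (((Wo a - Ao a : ℕ) : ℝ) * ∏ b ∈ univ.erase a, (Wo b : ℝ)) ^ D ≤
        (1 - z) ^ D * P ^ D := by
      intro a
      rw [← mul_pow]
      have e2 : ((Wo a - Ao a : ℕ) : ℝ) * ∏ b ∈ univ.erase a, (Wo b : ℝ) = (1 - x a) * P := by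
        rw [hP, ← mul_prod_erase univ (fun a => (Wo a : ℝ)) (mem_univ a), Nat.cast_sub (hAW a),
          hax a]
        ring
      rw [e2]
      have e3 := hx1 a
      have e4 : z ≤ x a := hmin a (mem_univ a)
      apply pow_le_pow_left₀ (mul_nonneg (by linarith) hP0.le)
      apply mul_le_mul_of_nonneg_right _ hP0.le
      linarith
    have e5 : ∑ a, (((Wo a - Ao a : ℕ) : ℝ) * ∏ b ∈ univ.erase a, (Wo b : ℝ)) ^ D ≤
        q * ((1 - z) ^ D * P ^ D) := by
      calc _ ≤ ∑ _a : κ, (1 - z) ^ D * P ^ D := sum_le_sum fun a _ => e1 a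
        _ = _ := by rw [sum_const, card_univ, nsmul_eq_mul]
    by_contra hle
    push Not at hle
    have e6 : 3 * (q * ((1 - z) ^ D * P ^ D)) ≤ 1 * P ^ D := by
      rw [← mul_assoc (q : ℝ), ← mul_assoc (3 : ℝ)]
      exact mul_le_mul_of_nonneg_right hle hPD.le
    linarith
  have g4 : (1 - z) ^ D ≤ Real.exp (-(z * D)) := by
    calc (1 - z) ^ D ≤ (Real.exp (-z)) ^ D :=
          pow_le_pow_left₀ (by linarith) (by linarith [Real.add_one_le_exp (-z)]) _
      _ = Real.exp (-(z * D)) := by
          rw [← Real.exp_nat_mul]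
          congr 1
          ring
  have hqr : (1 : ℝ) ≤ q := by exact_mod_cast hq1
  have g5 : z * D < 2 * q := by
    by_contra hle
    push Not at hle
    have e1 : Real.exp (-(z * D)) ≤ Real.exp (-(2 * q)) := Real.exp_le_exp.2 (by linarith)
    have e2 : 3 * q * Real.exp (-(2 * q)) ≤ 1 := by
      rw [Real.exp_neg, ← div_eq_mul_inv, div_le_one (Real.exp_pos _)]
      have e3 : Real.exp (2 * q) = Real.exp q * Real.exp q := by
        rw [← Real.exp_add]
        ring_nf
      have e4 := Real.add_one_le_exp (q : ℝ)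
      rw [e3]
      nlinarith
    have e5 : 3 * (q * (1 - z) ^ D) ≤ 3 * q * Real.exp (-(2 * q)) := by
      rw [← mul_assoc]
      apply mul_le_mul_of_nonneg_left (g4.trans e1)
      positivity
    linarith
  have g6 : z ^ D ≤ (2 * q / D) ^ D := by
    refine pow_le_pow_left₀ hz0.le ?_ _
    rw [le_div_iff₀ hD0]
    exact g5.le
  have g7 : (3 : ℝ) * 2 ^ (q * w) * (2 * q / D) ^ D ≤ 1 := by
    have hD' : (3 : ℝ) * 2 ^ (q * w) * (2 * q) ^ D ≤ (D : ℝ) ^ D := by exact_mod_cast hD
    rw [div_pow, ← mul_div_assoc, div_le_one (by positivity)]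
    exact hD'
  have g8 : (3 : ℝ) * 2 ^ (q * w) * z ^ D ≤ 3 * 2 ^ (q * w) * (2 * q / D) ^ D :=
    mul_le_mul_of_nonneg_left g6 (by positivity)
  linarith

/-- **Upper bound.** -/
theorem upperQ [Nonempty κ] (χ : V → V → κ) (hs : ∀ x y, χ x y = χ y x) {w D : ℕ}
    (hG : ColRankWidthLE (gr χ hs) w) (hD1 : 1 ≤ D)
    (hD : 3 * 2 ^ (Fintype.card κ * w) * (2 * Fintype.card κ) ^ D ≤ D ^ D) :
    ∀ (n : ℕ) (W : Finset V), W.card = n → n ≤ (∏ a, om (gr χ hs a) W) ^ D := by
  intro n
  induction n using Nat.strong_induction_on with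
  | _ n ih =>
    intro W hW
    rcases Nat.lt_or_ge n 2 with hn | hn
    · rcases Nat.eq_zero_or_pos n with rfl | h0
      · exact Nat.zero_le _
      · have hne : W.Nonempty := by
          rw [← card_pos]
          omega
        have : 1 ≤ (∏ a, om (gr χ hs a) W) ^ D :=
          Nat.one_le_pow _ _ (prod_pos fun a _ => om_pos _ hne)
        omega
    · obtain ⟨T, hT, hT1, hT2⟩ := Dec.balanced hG W (by omega) (by
        rw [univ_inter]
        omega)
      have hTne : (T ∩ W).Nonempty := by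
        rw [← card_pos]
        omega
      obtain ⟨A, hA, hAc, hAB⟩ := popularQ (gr χ hs) T W w hT hTne
      have hAne : A.Nonempty := by
        rw [← card_pos]
        by_contra h
        have h0 : A.card = 0 := by omega
        rw [h0, mul_zero] at hAc
        rw [← card_pos] at hTne
        omega
      obtain ⟨a0, ha0⟩ := hAne
      have hAne : A.Nonempty := ⟨a0, ha0⟩
      set B : κ → Finset V := fun i => (W \ T).filter fun b => χ a0 b = i with hB
      have hsd : (W \ T).card + (T ∩ W).card = W.card := by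
        rw [inter_comm]
        exact card_sdiff_add_card_inter W T
      have hBc : (W \ T).card = ∑ i, (B i).card :=
        card_eq_sum_card_fiberwise fun b _ => mem_univ (χ a0 b)
      have hAW : A ⊆ W := hA.trans inter_subset_right
      have hBW : ∀ i, B i ⊆ W := fun i => (filter_subset _ _).trans sdiff_subset
      have hAle : A.card ≤ (T ∩ W).card := card_le_card hA
      have hBle : ∀ i, (B i).card ≤ (W \ T).card := fun i => card_le_card (filter_subset _ _)
      have i1 := ih A.card (by omega) A rfl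
      have i2 : ∀ i, (B i).card ≤ (∏ a, om (gr χ hs a) (B i)) ^ D := fun i =>
        ih (B i).card (by have := hBle i; omega) (B i) rfl
      have hcomp : ∀ i, ∀ a ∈ A, ∀ b ∈ B i, (gr χ hs i).Adj a b := by
        intro i a ha b hb
        rw [hB] at hb
        simp only [mem_filter] at hb
        have hne : a0 ≠ b := by
          rintro rfl
          exact (mem_sdiff.1 hb.1).2 (mem_inter.1 (hA ha0)).1
        exact (hAB a0 ha0 a ha b hb.1 i).1 ⟨hne, hb.2⟩
      have j1 : ∀ i, om (gr χ hs i) A + om (gr χ hs i) (B i) ≤ om (gr χ hs i) W := fun i =>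
        om_add _ hAW (hBW i) (hcomp i)
      refine numericQ (w := w) (fun a => om (gr χ hs a) W) (fun a => om (gr χ hs a) A)
        (fun a => om_pos _ hAne) (fun a => om_mono _ hAW) hD1 hD ?_ ?_
      · calc n ≤ 3 * (T ∩ W).card := by omega
          _ ≤ 3 * (2 ^ (Fintype.card κ * w) * A.card) := Nat.mul_le_mul_left _ hAc
          _ ≤ 3 * (2 ^ (Fintype.card κ * w) * (∏ a, om (gr χ hs a) A) ^ D) := by gcongr
          _ = _ := by ring
      · calc n ≤ 3 * (W \ T).card := by omega
          _ = 3 * ∑ i, (B i).card := by rw [hBc]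
          _ ≤ _ := by
            apply Nat.mul_le_mul_left
            apply sum_le_sum
            intro i _
            refine (i2 i).trans (Nat.pow_le_pow_left ?_ _)
            rw [← mul_prod_erase univ (fun a => om (gr χ hs a) (B i)) (mem_univ i)]
            apply Nat.mul_le_mul
            · have := j1 i
              omega
            · exact prod_le_prod' fun b _ => om_mono _ (hBW i)

end Pool.Agent.Q253.LinkRW
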